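import Pool.Agent.J6H93.NG.Item

/-!
# Decoding of the certificates
-/

set_option autoImplicit false

namespace Pool.Agent.J6H93.NG

open Pool.Agent.J6H77.N18 (T)

/-- stream of codes: the length in words of 16 bits (5 bits), then the code -/
def dec : ℕ → ℕ → List ℕ
  | 0, _ => []
  | f + 1, X => bif Nat.beq X 0 then [] else
      Nat.mod (Nat.shiftRight X 5) (Nat.shiftLeft 1 (Nat.mul 16 (Nat.mod X 32))) ::
        dec f (Nat.shiftRight X (Nat.add 5 (Nat.mul 16 (Nat.mod X 32))))

/-- stream of items: the length in bits (24 bits), then the stream of codes -/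
def decs : ℕ → ℕ → List (List ℕ)
  | 0, _ => []
  | g + 1, Y => bif Nat.beq Y 0 then [] else
      dec 1000000 (Nat.mod (Nat.shiftRight Y 24) (Nat.shiftLeft 1 (Nat.mod Y 16777216))) ::
        decs g (Nat.shiftRight Y (Nat.add 24 (Nat.mod Y 16777216)))

/-- table lookup -/
def tb (t : T) (m : ℕ) : ℕ := t.get 20 m

/-- one block: the items of a stream are checked, and their number is `l` -/
def blk (N E : ℕ) (t : T) (n l Y : ℕ) : Bool :=
  items N E (tb t) n (decs 100000 Y) && Nat.beq (decs 100000 Y).length l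

theorem blk_sound {N D : ℕ} (hN : N ≤ 18) (t : T) (n l Y : ℕ)
    (h : blk N (D + 1) t n l Y = true) (hn : ∀ m, m < n → RW N D (tb t m)) :
    ∀ m, m < n + l → RW N D (tb t m) := by
  unfold blk at h
  rw [Bool.and_eq_true] at h
  have h2 := Nat.eq_of_beq_eq_true h.2
  rw [← h2]
  exact t_Items hN (tb t) n _ h.1 hn

end Pool.Agent.J6H93.NG
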