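import Pool.Agent.J6H77.N18.DIG
import Pool.Agent.J6H77.N18.ADD

/-!
# `D`-regular graphs on `N` vertices: the checker

The general form (`N` vertices, degree `D`, with the row `∑ x = 0`) of the checker of helper77 in
`Pool.Agent.J6H77.N18`.  States are stored as there.
-/

set_option autoImplicit false

namespace Pool.Agent.J6H93.NG

open Finset
open Pool.Agent.J6H77.N18 (Sh Occ ent row cdeg addE addV mp embE injF T edg bldV bldE big cE cV)

/-- A counterexample: a `D`-regular graph on `N` vertices such that the kernel of `A + 1` is spanned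
by one vector without zero entries. -/
structure Cx (N D : ℕ) (V : Type) [Fintype V] [DecidableEq V] (A : V → V → Prop)
    [DecidableRel A] : Prop where
  card : Fintype.card V = N
  symm : ∀ u v, A u v → A v u
  irr : ∀ v, ¬ A v v
  deg : ∀ v, (univ.filter (fun w => A v w)).card = D
  ex : ∃ x : V → ℝ, (∀ v, x v ≠ 0) ∧ (∀ v, x v + ∑ w, (if A v w then x w else 0) = 0) ∧
    ∀ y : V → ℝ, (∀ v, y v + ∑ w, (if A v w then y w else 0) = 0) → ∃ c : ℝ, ∀ v, y v = c * x v

/-- the partial graph does not occur in a counterexample -/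
def Ref (N D : ℕ) (s : ℕ × ℕ) : Prop :=
  ∀ (c : ℕ → ℕ → ℕ), Sh s.1 s.2 c → ∀ (V : Type) [Fintype V] [DecidableEq V]
    (A : V → V → Prop) [DecidableRel A], Cx N D V A → ¬ Occ s.1 c V A

/-- the row `∑ j < N, 65536 ^ j` -/
def ones (N : ℕ) : ℕ := Nat.div (Nat.sub (Nat.shiftLeft 1 (Nat.mul 16 N)) 1) 65535

/-- row `i`; the label `31` stands for the row `on` -/
def rowX (M on i : ℕ) : ℕ := bif Nat.beq i 31 then on else row M i

/-- sum of multiples of rows of completed labels different from `a` and `b`, and of `on` (label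
`31`); each entry of the certificate `C` has a label (5 bits) and a coefficient (11 bits) -/
def fold (E M on a b : ℕ) : ℕ → ℕ → ℕ → Option ℕ
  | 0, _, P => some P
  | n + 1, C, P =>
    bif ((Nat.beq (cdeg M (Nat.mod C 32)) E || Nat.beq (Nat.mod C 32) 31) &&
        (!(Nat.beq (Nat.mod C 32) a) && !(Nat.beq (Nat.mod C 32) b))) then
      fold E M on a b n (Nat.shiftRight C 16)
        (Nat.add P (Nat.mul (Nat.mod (Nat.shiftRight C 5) 2048) (rowX M on (Nat.mod C 32))))
    else none

/-- zero certificate: `P = Q + c * 65536 ^ v`; fields `v` (5), `c` (11), `np` (5), `nq` (5),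
entries (16 each) -/
def zeroC (N E k M w : ℕ) : Bool :=
  Nat.blt (Nat.mod w 32) k && (!(Nat.beq (Nat.mod (Nat.shiftRight w 5) 2048) 0) &&
  match fold E M (bif Nat.beq k N then ones N else 0) 30 30 (Nat.mod (Nat.shiftRight w 16) 32)
      (Nat.shiftRight w 26) 0,
    fold E M (bif Nat.beq k N then ones N else 0) 30 30 (Nat.mod (Nat.shiftRight w 21) 32)
      (Nat.shiftRight w (Nat.add 26 (Nat.mul 16 (Nat.mod (Nat.shiftRight w 16) 32)))) 0 with
  | some P, some Q => Nat.beq P (Nat.add Q (Nat.shiftLeft (Nat.mod (Nat.shiftRight w 5) 2048)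
      (Nat.mul 16 (Nat.mod w 32))))
  | _, _ => false)

/-- dependency certificate: `d * row a + P = Q`, nothing at `b`; fields `a` (5), `d` (11),
`np` (5), `nq` (5), `b` (5), entries (16 each) -/
def depC (N E k M w : ℕ) : Bool :=
  Nat.beq (cdeg M (Nat.mod w 32)) E && (!(Nat.beq (Nat.mod (Nat.shiftRight w 5) 2048) 0) &&
  (!(Nat.beq (Nat.mod w 32) (Nat.mod (Nat.shiftRight w 26) 32)) &&
  ((Nat.blt (Nat.mod (Nat.shiftRight w 26) 32) k || Nat.blt k N) &&
  match fold E M 0 (Nat.mod w 32) (Nat.mod (Nat.shiftRight w 26) 32)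
      (Nat.mod (Nat.shiftRight w 16) 32) (Nat.shiftRight w 31) 0,
    fold E M 0 (Nat.mod w 32) (Nat.mod (Nat.shiftRight w 26) 32)
      (Nat.mod (Nat.shiftRight w 21) 32)
      (Nat.shiftRight w (Nat.add 31 (Nat.mul 16 (Nat.mod (Nat.shiftRight w 16) 32)))) 0 with
  | some P, some Q => Nat.beq (Nat.add (Nat.mul (Nat.mod (Nat.shiftRight w 5) 2048)
      (row M (Nat.mod w 32))) P) Q
  | _, _ => false)))

/-- embedding certificate of the pattern `p` (`k` in 5 bits, then the edges) by the map `F`; the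
bits `≥ k` of the mask are set at the beginning, so all images are `< k` -/
def embC (k M p F : ℕ) : Bool :=
  injF F (Nat.mod p 32) (Nat.sub 4294967296 (Nat.shiftLeft 1 k)) &&
    (Nat.ble (Nat.mod p 32) k && embE M F 31 (Nat.shiftRight p 5))

/-- candidates -/
def cands (E M i : ℕ) : ℕ → List ℕ
  | 0 => []
  | j + 1 => bif (Nat.beq (ent M i j) 0 && Nat.blt (cdeg M j) E) then j :: cands E M i j
      else cands E M i j

/-- add `m` new labels adjacent to `i` -/
def news (i : ℕ) : ℕ → ℕ → ℕ → ℕ × ℕ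
  | 0, k, M => (k, M)
  | m + 1, k, M => news i m (Nat.succ k) (addE (addV M k) i k)

/-- choose `m` neighbours of `i` in the list or among new labels -/
def sel (N k i : ℕ) : List ℕ → ℕ → ℕ → List (ℕ × ℕ) → List (ℕ × ℕ)
  | [], m, M, r => bif Nat.ble (Nat.add k m) N then news i m k M :: r else r
  | j :: l, m, M, r => bif Nat.beq m 0 then (k, M) :: r
      else sel N k i l (Nat.sub m 1) (addE M i j) (sel N k i l m M r)

/-- children of the state when label `i` is completed -/
def kids (N E k M i : ℕ) (r : List (ℕ × ℕ)) : List (ℕ × ℕ) :=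
  sel N k i (cands E M i k) (Nat.sub E (cdeg M i)) M r

/-- the main loop: `ws` are the codes, `st` the states still to be refuted -/
def run (N E : ℕ) (tab : ℕ → ℕ) (n : ℕ) : List ℕ → List (ℕ × ℕ) → Bool
  | [], [] => true
  | [], _ :: _ => false
  | _ :: _, [] => false
  | w :: ws, (k, M) :: st =>
    bif Nat.beq (Nat.mod w 4) 0 then
      -- branch at `i`
      Nat.blt (Nat.shiftRight w 2) k && run N E tab n ws (kids N E k M (Nat.shiftRight w 2) st)
    else bif Nat.beq (Nat.mod w 4) 1 then
      zeroC N E k M (Nat.shiftRight w 2) && run N E tab n ws st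
    else bif Nat.beq (Nat.mod w 4) 2 then
      depC N E k M (Nat.shiftRight w 2) && run N E tab n ws st
    else
      Nat.blt (Nat.mod (Nat.shiftRight w 2) 65536) n &&
        (embC k M (tab (Nat.mod (Nat.shiftRight w 2) 65536)) (Nat.shiftRight w 18) &&
          run N E tab n ws st)

/-- check of one item: the pattern `tab n` with the codes `ws` -/
def item (N E : ℕ) (tab : ℕ → ℕ) (n : ℕ) (ws : List ℕ) : Bool :=
  Nat.ble (Nat.mod (tab n) 32) 18 &&
  match bldE (Nat.mod (tab n) 32) 31 (Nat.shiftRight (tab n) 5) (bldV (Nat.mod (tab n) 32) 0) with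
  | some M => run N E tab n ws [(Nat.mod (tab n) 32, M)]
  | none => false

/-- check of the items `n, n + 1, ...` -/
def items (N E : ℕ) (tab : ℕ → ℕ) : ℕ → List (List ℕ) → Bool
  | _, [] => true
  | n, ws :: l => item N E tab n ws && items N E tab (Nat.succ n) l

/-- the pattern does not occur in a counterexample -/
def RefP (N D p : ℕ) : Prop :=
  ∀ (V : Type) [Fintype V] [DecidableEq V] (A : V → V → Prop) [DecidableRel A], Cx N D V A →
    ¬ ∃ φ : ℕ → V, (∀ i j, i < Nat.mod p 32 → j < Nat.mod p 32 → φ i = φ j → i = j) ∧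
      ∀ e ∈ edg 31 (Nat.shiftRight p 5), A (φ e.1) (φ e.2)

end Pool.Agent.J6H93.NG
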