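import Pool.Agent.J6H93.NG.Kids

/-!
# Soundness of the checker (adapted from the modules EMB of helper63 and ITEM of helper78)
-/

set_option autoImplicit false

namespace Pool.Agent.J6H93.NG

open Finset
open Pool.Agent.J6H77.N18 (Sh Occ ent row cdeg addE addV mp embE injF T edg bldV bldE big cE cV
  t_Dig t_Add)

/-! ### embeddings -/

/-- the edges of the pattern are between its labels -/
def WF (p : ℕ) : Prop :=
  ∀ e ∈ edg 31 (Nat.shiftRight p 5), e.1 < Nat.mod p 32 ∧ e.2 < Nat.mod p 32

theorem mask_step (m b j : ℕ) (h : Nat.mod (Nat.shiftRight m b) 2 = 0)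
    (h2 : Nat.mod (Nat.shiftRight (Nat.add m (Nat.shiftLeft 1 b)) j) 2 = 0) :
    j ≠ b ∧ Nat.mod (Nat.shiftRight m j) 2 = 0 := by
  change (m >>> b) % 2 = 0 at h
  change ((m + 1 <<< b) >>> j) % 2 = 0 at h2
  change j ≠ b ∧ (m >>> j) % 2 = 0
  rw [Nat.shiftRight_eq_div_pow] at h h2 ⊢
  rw [Nat.shiftLeft_eq, one_mul] at h2
  rcases Nat.lt_trichotomy j b with hj | hj | hj
  · refine ⟨hj.ne, ?_⟩
    obtain ⟨e, rfl⟩ : ∃ e, b = j + (e + 1) := ⟨b - j - 1, by omega⟩
    rw [pow_add, Nat.add_mul_div_left _ _ (by positivity), pow_succ] at h2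
    omega
  · subst hj
    rw [Nat.add_div_right _ (by positivity)] at h2
    omega
  · refine ⟨hj.ne', ?_⟩
    obtain ⟨e, rfl⟩ : ∃ e, j = (b + 1) + e := ⟨j - b - 1, by omega⟩
    have h3 : (m + 2 ^ b) / 2 ^ (b + 1) = m / 2 ^ (b + 1) := by
      rw [pow_succ, ← Nat.div_div_eq_div_mul, ← Nat.div_div_eq_div_mul,
        Nat.add_div_right _ (by positivity)]
      omega
    rw [pow_add, ← Nat.div_div_eq_div_mul] at h2 ⊢
    rw [h3] at h2
    exact h2

theorem injF_spec (F : ℕ) : ∀ n m : ℕ, injF F n m = true →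
    (∀ t, t < n → Nat.mod (Nat.shiftRight m (mp F t)) 2 = 0) ∧
      ∀ s t, s < n → t < n → mp F s = mp F t → s = t := by
  intro n
  induction n with
  | zero =>
    intro m _
    exact ⟨fun t ht => absurd ht (Nat.not_lt_zero t), fun s t hs => absurd hs (Nat.not_lt_zero s)⟩
  | succ n ih =>
    intro m h
    have h' : (Nat.beq (Nat.mod (Nat.shiftRight m (mp F n)) 2) 0 &&
      injF F n (Nat.add m (Nat.shiftLeft 1 (mp F n)))) = true := h
    rw [Bool.and_eq_true] at h'
    obtain ⟨h1, h2⟩ := h'
    have h1' : Nat.mod (Nat.shiftRight m (mp F n)) 2 = 0 := Nat.eq_of_beq_eq_true h1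
    obtain ⟨h3, h4⟩ := ih _ h2
    have h5 : ∀ t, t < n → mp F t ≠ mp F n ∧ Nat.mod (Nat.shiftRight m (mp F t)) 2 = 0 :=
      fun t ht => mask_step m (mp F n) (mp F t) h1' (h3 t ht)
    constructor
    · intro t ht
      rcases Nat.lt_succ_iff_lt_or_eq.1 ht with h | h
      · exact (h5 t h).2
      · rw [h]
        exact h1'
    · intro s t hs ht hst
      rcases Nat.lt_succ_iff_lt_or_eq.1 hs with h | h <;>
        rcases Nat.lt_succ_iff_lt_or_eq.1 ht with h' | h'
      · exact h4 s t h h' hst
      · rw [h'] at hst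
        exact absurd hst (h5 s h).1
      · rw [h] at hst
        exact absurd hst.symm (h5 t h').1
      · rw [h, h']

theorem mask_zero : ∀ k, k < 19 → ∀ b, b < 32 →
    Nat.mod (Nat.shiftRight (Nat.sub 4294967296 (Nat.shiftLeft 1 k)) b) 2 = 0 → b < k := by
  decide

theorem embE_spec (M F : ℕ) : ∀ n E : ℕ, embE M F n E = true → ∀ e ∈ edg n E,
    mp F e.1 ≠ mp F e.2 ∧ ent M (mp F e.1) (mp F e.2) = 1 := by
  intro n
  induction n with
  | zero =>
    intro E _ e he
    simp [edg] at he
  | succ n ih =>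
    intro E h e he
    unfold edg at he
    unfold embE at h
    cases hE : Nat.beq E 0 with
    | true =>
      rw [hE] at he
      simp at he
    | false =>
      rw [hE] at he h
      simp only [Bool.false_or, Bool.and_eq_true, Bool.not_eq_true', cond_false,
        List.mem_cons] at he h
      obtain ⟨⟨h1, h2⟩, h3⟩ := h
      rcases he with rfl | he
      · exact ⟨Nat.ne_of_beq_eq_false h1, Nat.eq_of_beq_eq_true h2⟩
      · exact ih _ h3 e he

theorem mp_lt (F i : ℕ) : mp F i < 32 := Nat.mod_lt _ (by norm_num)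

theorem t_Emb {N D : ℕ} (k M p F : ℕ) (h : embC k M p F = true) (hwf : WF p)
    (hp : RefP N D p) : Ref N D (k, M) := by
  intro c hc V _ _ A _ hA
  rintro ⟨φ, hinj, hadj⟩
  change Sh k M c at hc
  change ∀ i j, i < k → j < k → φ i = φ j → i = j at hinj
  change ∀ i j, i < k → j < k → i ≠ j → c i j = 1 → A (φ i) (φ j) at hadj
  have hk := hc.k18
  unfold embC at h
  rw [Bool.and_eq_true, Bool.and_eq_true] at h
  obtain ⟨h1, -, h3⟩ := h
  obtain ⟨h4, h5⟩ := injF_spec F _ _ h1
  have hlt : ∀ t, t < Nat.mod p 32 → mp F t < k := fun t ht =>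
    mask_zero k (by omega) _ (mp_lt F t) (h4 t ht)
  refine hp V A hA ⟨fun t => φ (mp F t), ?_, ?_⟩
  · intro i j hi hj hij
    exact h5 i j hi hj (hinj _ _ (hlt i hi) (hlt j hj) hij)
  · intro e he
    obtain ⟨h6, h7⟩ := embE_spec M F _ _ h3 e he
    obtain ⟨h8, h9⟩ := hwf e he
    have h10 := hlt _ h8
    have h11 := hlt _ h9
    refine hadj _ _ h10 h11 h6 ?_
    rw [← (t_Dig k M c hc).1 _ _ (by omega) (by omega)]
    exact h7

theorem wf_bldE (k : ℕ) : ∀ n E M M' : ℕ, bldE k n E M = some M' →
    ∀ e ∈ edg n E, e.1 < k ∧ e.2 < k := by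
  intro n
  induction n with
  | zero =>
    intro E M M' _ e he
    simp [edg] at he
  | succ n ih =>
    intro E M M' h e he
    unfold edg at he
    unfold bldE at h
    cases hE : Nat.beq E 0 with
    | true =>
      rw [hE] at he
      simp at he
    | false =>
      rw [hE] at he h
      simp only [cond_false, List.mem_cons] at he h
      cases hc : (Nat.blt (Nat.mod E 32) k && (Nat.blt (Nat.mod (Nat.shiftRight E 5) 32) k &&
        Nat.beq (ent M (Nat.mod E 32) (Nat.mod (Nat.shiftRight E 5) 32)) 0)) with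
      | false =>
        rw [hc] at h
        simp at h
      | true =>
        rw [hc] at h
        rw [cond_true] at h
        rw [Bool.and_eq_true, Bool.and_eq_true] at hc
        rcases he with rfl | he
        · exact ⟨Nat.le_of_ble_eq_true hc.1, Nat.le_of_ble_eq_true hc.2.1⟩
        · exact ih _ _ _ h e he

/-! ### the main loop -/

/-- refuted and well-formed -/
def RW (N D p : ℕ) : Prop := WF p ∧ RefP N D p

theorem run_ref {N D : ℕ} (hN : N ≤ 18) (tab : ℕ → ℕ) (n : ℕ)
    (hn : ∀ m, m < n → RW N D (tab m)) :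
    ∀ (ws : List ℕ) (st : List (ℕ × ℕ)), run N (D + 1) tab n ws st = true →
      ∀ s ∈ st, Ref N D s
  | [], [], _ => by simp
  | [], _ :: _, h => by simp [run] at h
  | _ :: _, [], _ => by simp
  | w :: ws, (k, M) :: st, h => by
    have ih := run_ref hN tab n hn ws
    rw [run] at h
    by_cases h0 : Nat.beq (Nat.mod w 4) 0 = true
    · rw [h0, cond_true] at h
      simp only [Bool.and_eq_true] at h
      obtain ⟨h1, h3⟩ := h
      have hi : Nat.shiftRight w 2 < k := by
        have := h1
        simp only [Nat.blt] at this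
        exact Nat.le_of_ble_eq_true this
      have := t_Kids hN k M (Nat.shiftRight w 2) st hi (ih _ h3)
      intro s hs
      rcases List.mem_cons.1 hs with rfl | hs
      · exact this.1
      · exact this.2 s hs
    · rw [Bool.not_eq_true] at h0
      rw [h0, cond_false] at h
      by_cases h1 : Nat.beq (Nat.mod w 4) 1 = true
      · rw [h1, cond_true] at h
        simp only [Bool.and_eq_true] at h
        intro s hs
        rcases List.mem_cons.1 hs with rfl | hs
        · exact t_Zero hN _ _ _ h.1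
        · exact ih st h.2 s hs
      · rw [Bool.not_eq_true] at h1
        rw [h1, cond_false] at h
        by_cases h2 : Nat.beq (Nat.mod w 4) 2 = true
        · rw [h2, cond_true] at h
          simp only [Bool.and_eq_true] at h
          intro s hs
          rcases List.mem_cons.1 hs with rfl | hs
          · exact t_Dep _ _ _ h.1
          · exact ih st h.2 s hs
        · rw [Bool.not_eq_true] at h2
          rw [h2, cond_false] at h
          simp only [Bool.and_eq_true] at h
          obtain ⟨ha, hb, hc⟩ := h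
          have hlt : Nat.mod (Nat.shiftRight w 2) 65536 < n := by
            have := ha
            simp only [Nat.blt] at this
            exact Nat.le_of_ble_eq_true this
          intro s hs
          rcases List.mem_cons.1 hs with rfl | hs
          · exact t_Emb _ _ _ _ hb (hn _ hlt).1 (hn _ hlt).2
          · exact ih st hc s hs

/-- the number with the labels `< n` and no edges -/
def lab : ℕ → ℕ
  | 0 => 0
  | n + 1 => addV (lab n) n

theorem addV_eq (M k : ℕ) : addV M k = M + 2 ^ (304 * k) := by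
  unfold addV
  show M + 1 <<< (304 * k) = _
  rw [Nat.shiftLeft_eq, one_mul]

theorem bldV_eq (n : ℕ) : ∀ M : ℕ, bldV n M = M + lab n := by
  induction n with
  | zero => intro M; simp [bldV, lab]
  | succ n ih =>
    intro M
    rw [bldV, ih, lab, addV_eq, addV_eq]
    ring

theorem lab_sh : ∀ n : ℕ, n ≤ 18 → ∃ c : ℕ → ℕ → ℕ, Sh n (lab n) c ∧
    ∀ i j, i ≠ j → c i j = 0
  | 0, _ => ⟨fun _ _ => 0, t_Add.2.2, fun _ _ _ => rfl⟩
  | n + 1, hn => by
    obtain ⟨c, hc, h0⟩ := lab_sh n (by omega)
    refine ⟨cV c n, t_Add.2.1 n (lab n) c hc (by omega), fun i j hij => ?_⟩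
    unfold cV
    rw [if_neg (by rintro ⟨rfl, rfl⟩; exact hij rfl)]
    exact h0 i j hij

theorem bldE_ref (k : ℕ) (V : Type) (A : V → V → Prop)
    (hs : ∀ u v, A u v → A v u) (φ : ℕ → V) :
    ∀ (n E M M' : ℕ) (c : ℕ → ℕ → ℕ), Sh k M c →
      (∀ i j, i < k → j < k → i ≠ j → c i j = 1 → A (φ i) (φ j)) →
      (∀ e ∈ edg n E, A (φ e.1) (φ e.2)) → bldE k n E M = some M' →
      ∃ c' : ℕ → ℕ → ℕ, Sh k M' c' ∧
        ∀ i j, i < k → j < k → i ≠ j → c' i j = 1 → A (φ i) (φ j)
  | 0, E, M, M', c, hc, hcA, _, h => by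
    rw [bldE] at h
    by_cases hE : Nat.beq E 0 = true
    · rw [hE, cond_true] at h
      obtain rfl := Option.some.inj h
      exact ⟨c, hc, hcA⟩
    · rw [Bool.not_eq_true] at hE
      rw [hE, cond_false] at h
      exact absurd h (by simp)
  | n + 1, E, M, M', c, hc, hcA, he, h => by
    rw [bldE] at h
    by_cases hE : Nat.beq E 0 = true
    · rw [hE, cond_true] at h
      obtain rfl := Option.some.inj h
      exact ⟨c, hc, hcA⟩
    · rw [Bool.not_eq_true] at hE
      rw [hE, cond_false] at h
      rw [edg, hE, cond_false] at he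
      by_cases hC : (Nat.blt (Nat.mod E 32) k && (Nat.blt (Nat.mod (Nat.shiftRight E 5) 32) k &&
        Nat.beq (ent M (Nat.mod E 32) (Nat.mod (Nat.shiftRight E 5) 32)) 0)) = true
      · rw [hC, cond_true] at h
        simp only [Bool.and_eq_true] at hC
        obtain ⟨h1, h2, h3⟩ := hC
        have hi : Nat.mod E 32 < k := by
          have := h1
          simp only [Nat.blt] at this
          exact Nat.le_of_ble_eq_true this
        have hj : Nat.mod (Nat.shiftRight E 5) 32 < k := by
          have := h2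
          simp only [Nat.blt] at this
          exact Nat.le_of_ble_eq_true this
        have hz : ent M (Nat.mod E 32) (Nat.mod (Nat.shiftRight E 5) 32) = 0 :=
          Nat.eq_of_beq_eq_true h3
        have hk18 := hc.k18
        have hent := (t_Dig k M c hc).1 (Nat.mod E 32) (Nat.mod (Nat.shiftRight E 5) 32)
          (by omega) (by omega)
        have hc0 : c (Nat.mod E 32) (Nat.mod (Nat.shiftRight E 5) 32) = 0 := by
          rw [← hent, hz]
        refine bldE_ref k V A hs φ n _ _ M' (cE c (Nat.mod E 32)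
          (Nat.mod (Nat.shiftRight E 5) 32)) (t_Add.1 k M c _ _ hc hi hj hc0) ?_
          (fun e hem => he e (List.mem_cons_of_mem _ hem)) h
        intro i j hi' hj' hij hcij
        have hA1 : A (φ (Nat.mod E 32)) (φ (Nat.mod (Nat.shiftRight E 5) 32)) :=
          he _ (List.mem_cons_self ..)
        unfold cE at hcij
        by_cases hh : (i = Nat.mod E 32 ∧ j = Nat.mod (Nat.shiftRight E 5) 32) ∨
            (i = Nat.mod (Nat.shiftRight E 5) 32 ∧ j = Nat.mod E 32)
        · rcases hh with ⟨rfl, rfl⟩ | ⟨rfl, rfl⟩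
          · exact hA1
          · exact hs _ _ hA1
        · rw [if_neg hh] at hcij
          exact hcA i j hi' hj' hij hcij
      · rw [Bool.not_eq_true] at hC
        rw [hC, cond_false] at h
        exact absurd h (by simp)

theorem item_ref {N D : ℕ} (hN : N ≤ 18) (tab : ℕ → ℕ) (n : ℕ) (ws : List ℕ)
    (h : item N (D + 1) tab n ws = true)
    (hn : ∀ m, m < n → RW N D (tab m)) : RW N D (tab n) := by
  unfold item at h
  rw [Bool.and_eq_true] at h
  obtain ⟨h1, h2⟩ := h
  have hk : Nat.mod (tab n) 32 ≤ 18 := Nat.le_of_ble_eq_true h1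
  revert h2
  cases hb : bldE (Nat.mod (tab n) 32) 31 (Nat.shiftRight (tab n) 5)
      (bldV (Nat.mod (tab n) 32) 0) with
  | none => intro h2; simp at h2
  | some M =>
    intro h2
    refine ⟨wf_bldE _ _ _ _ _ hb, ?_⟩
    have hR : Ref N D (Nat.mod (tab n) 32, M) :=
      run_ref hN tab n hn ws _ h2 _ (List.mem_singleton_self _)
    intro V _ _ A _ hCx
    rintro ⟨φ, hinj, hedg⟩
    rw [bldV_eq, zero_add] at hb
    obtain ⟨c, hc, hc0⟩ := lab_sh _ hk
    obtain ⟨c', hc', hA'⟩ := bldE_ref (Nat.mod (tab n) 32) V A hCx.symm φ 31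
      (Nat.shiftRight (tab n) 5) (lab (Nat.mod (tab n) 32)) M c hc
      (fun i j _ _ hij hcij => by rw [hc0 i j hij] at hcij; exact absurd hcij (by norm_num))
      hedg hb
    exact hR c' hc' V A hCx ⟨φ, hinj, hA'⟩

/-- **Soundness of the checker.** -/
theorem t_Items {N D : ℕ} (hN : N ≤ 18) (tab : ℕ → ℕ) (n : ℕ) (l : List (List ℕ))
    (h : items N (D + 1) tab n l = true) (hn : ∀ m, m < n → RW N D (tab m)) :
    ∀ m, m < n + l.length → RW N D (tab m) := by
  induction l generalizing n with
  | nil =>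
    intro m hm
    exact hn m (by simpa using hm)
  | cons ws l ih =>
    intro m hm
    rw [items, Bool.and_eq_true] at h
    have h1 := item_ref hN tab n ws h.1 hn
    refine ih (Nat.succ n) h.2 (fun m' hm' => ?_) m (by
      rw [List.length_cons] at hm
      omega)
    rcases Nat.lt_succ_iff_lt_or_eq.1 hm' with h' | h'
    · exact hn m' h'
    · rw [h']
      exact h1

/-- from a regular nut graph to a counterexample -/
theorem t_Cx {N ρ : ℕ} (hρ : 0 < ρ) (hρN : ρ < N)
    (h : N ∈ Pool.Agent.TH296.Nut.nutOrders ρ) : ∃ (V : Type) (_ : Fintype V)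
      (_ : DecidableEq V) (A : V → V → Prop) (_ : DecidableRel A), Cx N (N - 1 - ρ) V A := by
  classical
  obtain ⟨V, iF, G, hV, hreg, h2, x, hx, hker⟩ := h
  have hmul : ∀ (y : V → ℝ) (v : V),
      (Matrix.toLin' (G.adjMatrix ℝ) y) v = ∑ w, (if G.Adj v w then y w else 0) := by
    intro y v
    rw [Matrix.toLin'_apply, Matrix.mulVec, dotProduct]
    refine Finset.sum_congr rfl fun w _ => ?_
    rw [SimpleGraph.adjMatrix_apply]
    split_ifs <;> simp
  have hmem : ∀ y : V → ℝ, (∀ v, ∑ w, (if G.Adj v w then y w else 0) = 0) ↔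
      ∃ c : ℝ, c • x = y := by
    intro y
    rw [← Submodule.mem_span_singleton, ← hker, LinearMap.mem_ker]
    constructor
    · intro h
      funext v
      rw [hmul]
      exact h v
    · intro h v
      rw [← hmul, h]
      rfl
  have hdeg : ∀ v, (univ.filter (fun w => G.Adj v w)).card = ρ := by
    intro v
    have h := hreg v
    rw [← SimpleGraph.card_neighborFinset_eq_degree, SimpleGraph.neighborFinset_eq_filter] at h
    exact h
  have hdeg' : ∀ v, (univ.filter (fun w => G.Adj w v)).card = ρ := by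
    intro v
    rw [← hdeg v]
    congr 1
    ext w
    simp [G.adj_comm]
  -- the sum over all rows
  have hsum : ∀ y : V → ℝ, ∑ v, ∑ w, (if G.Adj v w then y w else 0) = ρ * ∑ w, y w := by
    intro y
    rw [Finset.sum_comm, Finset.mul_sum]
    refine Finset.sum_congr rfl fun w _ => ?_
    rw [← Finset.sum_filter, Finset.sum_const, hdeg', nsmul_eq_mul]
  have hA : ∀ (y : V → ℝ) (v : V),
      y v + ∑ w, (if (v ≠ w ∧ ¬ G.Adj v w) then y w else 0) =
        ∑ w, y w - ∑ w, (if G.Adj v w then y w else 0) := by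
    intro y v
    rw [eq_sub_iff_add_eq, ← Finset.add_sum_erase univ (fun w => if G.Adj v w then y w else 0)
      (Finset.mem_univ v), ← Finset.add_sum_erase univ
        (fun w => if (v ≠ w ∧ ¬ G.Adj v w) then y w else 0) (Finset.mem_univ v),
      ← Finset.add_sum_erase univ y (Finset.mem_univ v)]
    simp only [ne_eq, not_true_eq_false, false_and, if_false, SimpleGraph.irrefl, zero_add,
      add_assoc, ← Finset.sum_add_distrib]
    congr 1
    refine Finset.sum_congr rfl fun w hw => ?_
    have hvw : v ≠ w := fun h => (Finset.mem_erase.1 hw).1 h.symm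
    by_cases h : G.Adj v w <;> simp [hvw, h]
  have hρ' : (0 : ℝ) < ρ := by exact_mod_cast hρ
  refine ⟨V, iF, inferInstance, fun u v => u ≠ v ∧ ¬ G.Adj u v, fun _ _ => inferInstance,
    ⟨hV, fun u v h => ⟨h.1.symm, fun h' => h.2 h'.symm⟩, fun v h => h.1 rfl, fun v => ?_,
      x, hx, fun v => ?_, fun y hy => ?_⟩⟩
  · have e1 : univ.filter (fun w => v ≠ w ∧ ¬ G.Adj v w) =
        (univ.filter (fun w => ¬ G.Adj v w)).erase v := by
      ext w
      simp [eq_comm]
    have e2 := Finset.card_filter_add_card_filter_not (s := (univ : Finset V)) (fun w => G.Adj v w)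
    rw [hdeg, Finset.card_univ, hV] at e2
    rw [e1, Finset.card_erase_of_mem (by simp)]
    omega
  · have h1 : ∀ v, ∑ w, (if G.Adj v w then x w else 0) = 0 := (hmem x).2 ⟨1, one_smul _ x⟩
    have h3 : ∑ w, x w = 0 := by
      have h4 := hsum x
      rw [Finset.sum_eq_zero fun v _ => h1 v] at h4
      rcases mul_eq_zero.1 h4.symm with h5 | h5
      · exact absurd h5 hρ'.ne'
      · exact h5
    rw [hA, h1, h3, sub_zero]
  · have h1 : ∀ v, ∑ w, (if G.Adj v w then y w else 0) = ∑ w, y w := fun v => by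
      have := hy v
      rw [hA] at this
      linarith
    have h3 : ∑ w, y w = 0 := by
      have h4 := hsum y
      rw [Finset.sum_congr rfl fun v _ => h1 v, Finset.sum_const, Finset.card_univ, hV,
        nsmul_eq_mul] at h4
      have h5 : ((N : ℝ) - ρ) * ∑ w, y w = 0 := by linarith
      have h6 : (ρ : ℝ) < N := by exact_mod_cast hρN
      rcases mul_eq_zero.1 h5 with h7 | h7
      · linarith
      · exact h7
    obtain ⟨c, hc⟩ := (hmem y).1 fun v => by rw [h1, h3]
    exact ⟨c, fun v => by rw [← hc]; rfl⟩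

/-- **The final step**: if the pattern with one label is refuted, there is no nut graph. -/
theorem final {N ρ D : ℕ} (hρ : 0 < ρ) (hρN : ρ < N) (hD : N - 1 - ρ = D) (h : RW N D 1) :
    N ∉ Pool.Agent.TH296.Nut.nutOrders ρ := by
  intro hmem
  obtain ⟨V, i1, i2, A, i3, hCx⟩ := t_Cx hρ hρN hmem
  rw [hD] at hCx
  have hne : Nonempty V := by
    rw [← Fintype.card_pos_iff, hCx.card]
    omega
  obtain ⟨v⟩ := hne
  refine h.2 V A hCx ⟨fun _ => v, ?_, ?_⟩
  · intro i j hi hj _
    have hi' : i < 1 := hi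
    have hj' : j < 1 := hj
    omega
  · intro e he
    simp [edg, Nat.shiftRight] at he

end Pool.Agent.J6H93.NG
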