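import Pool.Agent.J6H93.NG.Lin

/-!
# Branching is sound
-/

set_option autoImplicit false

namespace Pool.Agent.J6H93.NG

open Finset
open Pool.Agent.J6H77.N18 (Sh Occ ent row cdeg addE addV mp embE injF T edg bldV bldE big cE cV
  t_Dig t_Add)

/-- the missing neighbours -/
def Miss {V : Type} [Fintype V] [DecidableEq V] (A : V → V → Prop) [DecidableRel A]
    (k i : ℕ) (c : ℕ → ℕ → ℕ) (φ : ℕ → V) : Finset V :=
  (univ.filter fun w => A (φ i) w) \ (((range k).filter fun j => c i j = 1).image φ)

theorem mem_miss {V : Type} [Fintype V] [DecidableEq V] {A : V → V → Prop} [DecidableRel A]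
    {k i : ℕ} {c : ℕ → ℕ → ℕ} {φ : ℕ → V} {w : V} :
    w ∈ Miss A k i c φ ↔ A (φ i) w ∧ ∀ j, j < k → c i j = 1 → φ j ≠ w := by
  unfold Miss
  rw [mem_sdiff, mem_filter, mem_image]
  constructor
  · rintro ⟨h1, h2⟩
    exact ⟨h1.2, fun j hj hc he => h2 ⟨j, mem_filter.2 ⟨mem_range.2 hj, hc⟩, he⟩⟩
  · rintro ⟨h1, h2⟩
    refine ⟨⟨mem_univ _, h1⟩, ?_⟩
    rintro ⟨j, hj, he⟩
    have := mem_filter.1 hj
    exact h2 j (mem_range.1 this.1) this.2 he

/-- the situation of a partial graph in a counterexample -/
structure Sit (N D : ℕ) (k M : ℕ) (c : ℕ → ℕ → ℕ) (V : Type) [Fintype V] [DecidableEq V]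
    (A : V → V → Prop) [DecidableRel A] (φ : ℕ → V) : Prop where
  sh : Sh k M c
  cx : Cx N D V A
  inj : ∀ i j, i < k → j < k → φ i = φ j → i = j
  adj : ∀ i j, i < k → j < k → i ≠ j → c i j = 1 → A (φ i) (φ j)

theorem Sit.contra {N D : ℕ} {k M : ℕ} {c : ℕ → ℕ → ℕ} {V : Type} [Fintype V] [DecidableEq V]
    {A : V → V → Prop} [DecidableRel A] {φ : ℕ → V} (h : Sit N D k M c V A φ)
    (hr : Ref N D (k, M)) : False :=
  hr c h.sh V A h.cx ⟨φ, h.inj, h.adj⟩

/-- adding an edge -/
theorem Sit.edge {N D : ℕ} {k M : ℕ} {c : ℕ → ℕ → ℕ} {V : Type} [Fintype V] [DecidableEq V]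
    {A : V → V → Prop} [DecidableRel A] {φ : ℕ → V} (h : Sit N D k M c V A φ) {i j : ℕ}
    (hi : i < k) (hj : j < k) (hm : φ j ∈ Miss A k i c φ) :
    Sit N D k (addE M i j) (cE c i j) V A φ ∧
      Miss A k i (cE c i j) φ = (Miss A k i c φ).erase (φ j) := by
  have hm' := mem_miss.1 hm
  have hc0 : c i j = 0 := by
    have h1 := h.sh.le1 i j
    have h2 : c i j ≠ 1 := fun h3 => hm'.2 j hj h3 rfl
    omega
  have hij : i ≠ j := by
    rintro rfl
    rw [h.sh.di i hi] at hc0
    exact absurd hc0 (by norm_num)
  refine ⟨⟨t_Add.1 k M c i j h.sh hi hj hc0, h.cx, h.inj, ?_⟩, ?_⟩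
  · intro a b ha hb hab hc
    unfold cE at hc
    split_ifs at hc with h1
    · rcases h1 with ⟨rfl, rfl⟩ | ⟨rfl, rfl⟩
      · exact hm'.1
      · exact h.cx.symm _ _ hm'.1
    · exact h.adj a b ha hb hab hc
  · ext w
    rw [mem_erase, mem_miss, mem_miss]
    constructor
    · rintro ⟨h1, h2⟩
      refine ⟨?_, h1, ?_⟩
      · rintro rfl
        exact h2 j hj (by unfold cE; simp) rfl
      · intro j' hj' hc'
        apply h2 j' hj'
        unfold cE
        split_ifs
        · rfl
        · exact hc'
    · rintro ⟨h1, h2, h3⟩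
      refine ⟨h2, ?_⟩
      intro j' hj' hc'
      unfold cE at hc'
      split_ifs at hc' with h4
      · rcases h4 with ⟨_, rfl⟩ | ⟨h5, h6⟩
        · exact fun he => h1 he.symm
        · exact absurd h5 hij
      · exact h3 j' hj' hc'

/-- adding a new label for a missing neighbour outside the image -/
theorem Sit.new {N D : ℕ} (hN : N ≤ 18) {k M : ℕ} {c : ℕ → ℕ → ℕ} {V : Type} [Fintype V]
    [DecidableEq V] {A : V → V → Prop} [DecidableRel A] {φ : ℕ → V} (h : Sit N D k M c V A φ)
    {i : ℕ} (hi : i < k) {w : V} (hm : w ∈ Miss A k i c φ) (hw : ∀ j, j < k → φ j ≠ w) :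
    k < N ∧ Sit N D (k + 1) (addE (addV M k) i k) (cE (cV c k) i k) V A (Function.update φ k w) ∧
      Miss A (k + 1) i (cE (cV c k) i k) (Function.update φ k w) = (Miss A k i c φ).erase w := by
  have hm' := mem_miss.1 hm
  have hkN : k < N := by
    have h1 : (insert w ((range k).image φ)).card = k + 1 := by
      rw [card_insert_of_notMem, card_image_of_injOn, card_range]
      · intro a ha b hb hab
        exact h.inj a b (mem_range.1 ha) (mem_range.1 hb) hab
      · intro hc
        obtain ⟨j, hj, he⟩ := mem_image.1 hc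
        exact hw j (mem_range.1 hj) he
    have h2 : (insert w ((range k).image φ)).card ≤ N := by
      rw [← h.cx.card]
      exact card_le_univ _
    omega
  have hu : ∀ j, j < k → Function.update φ k w j = φ j := fun j hj =>
    Function.update_of_ne (by omega) _ _
  have huk : Function.update φ k w k = w := Function.update_self _ _ _
  have hsh1 := t_Add.2.1 k M c h.sh (by omega)
  have hck : cV c k i k = 0 := by
    unfold cV
    rw [if_neg (by omega), h.sh.sy i k]
    exact h.sh.out k i le_rfl
  have hsh2 := t_Add.1 (k + 1) (addV M k) (cV c k) i k hsh1 (by omega) (by omega) hck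
  have hcc : ∀ a b, a < k + 1 → b < k + 1 → a ≠ b → cE (cV c k) i k a b = 1 →
      (a = i ∧ b = k) ∨ (a = k ∧ b = i) ∨ (a < k ∧ b < k ∧ c a b = 1) := by
    intro a b ha hb hab hc
    unfold cE at hc
    split_ifs at hc with h1
    · tauto
    · right
      right
      unfold cV at hc
      rw [if_neg (by omega)] at hc
      refine ⟨?_, ?_, hc⟩
      · by_contra hak
        rw [h.sh.out a b (by omega)] at hc
        exact absurd hc (by norm_num)
      · by_contra hbk
        rw [h.sh.sy a b, h.sh.out b a (by omega)] at hc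
        exact absurd hc (by norm_num)
  refine ⟨hkN, ⟨hsh2, h.cx, ?_, ?_⟩, ?_⟩
  · intro a b ha hb hab
    by_cases hak : a = k
    · by_cases hbk : b = k
      · omega
      · rw [hak, huk, hu b (by omega)] at hab
        exact absurd hab.symm (hw b (by omega))
    · by_cases hbk : b = k
      · rw [hbk, huk, hu a (by omega)] at hab
        exact absurd hab (hw a (by omega))
      · rw [hu a (by omega), hu b (by omega)] at hab
        exact h.inj a b (by omega) (by omega) hab
  · intro a b ha hb hab hc
    rcases hcc a b ha hb hab hc with ⟨rfl, rfl⟩ | ⟨rfl, rfl⟩ | ⟨h1, h2, h3⟩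
    · rw [huk, hu a hi]
      exact hm'.1
    · rw [huk, hu b hi]
      exact h.cx.symm _ _ hm'.1
    · rw [hu a h1, hu b h2]
      exact h.adj a b h1 h2 hab h3
  · ext u
    rw [mem_erase, mem_miss, mem_miss, hu i hi]
    constructor
    · rintro ⟨h1, h2⟩
      refine ⟨?_, h1, ?_⟩
      · rintro rfl
        exact h2 k (by omega) (by unfold cE; simp) huk
      · intro j hj hc
        have h3 := h2 j (by omega) (by
          unfold cE
          split_ifs
          · rfl
          · unfold cV
            rw [if_neg (by omega)]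
            exact hc)
        rwa [hu j hj] at h3
    · rintro ⟨h1, h2, h3⟩
      refine ⟨h2, ?_⟩
      intro j hj hc
      by_cases hji : j = i
      · rw [hji, hu i hi]
        exact h3 i hi (h.sh.di i hi)
      · rcases hcc i j (by omega) hj (fun he => hji he.symm) hc with
          ⟨_, rfl⟩ | ⟨rfl, rfl⟩ | ⟨_, h5, h6⟩
        · rw [huk]
          exact fun he => h1 he.symm
        · omega
        · rw [hu j h5]
          exact h3 j h5 h6

/-- new labels -/
theorem news_sound {N D : ℕ} (hN : N ≤ 18) (i : ℕ) : ∀ (m k M : ℕ) (c : ℕ → ℕ → ℕ) (V : Type)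
    [Fintype V] [DecidableEq V] (A : V → V → Prop) [DecidableRel A] (φ : ℕ → V),
    Sit N D k M c V A φ → i < k → (Miss A k i c φ).card = m →
    (∀ j, j < k → φ j ∉ Miss A k i c φ) → k + m ≤ N ∧ (Ref N D (news i m k M) → False) := by
  intro m
  induction m with
  | zero =>
    intro k M c V _ _ A _ φ h hi hm hj
    refine ⟨?_, fun hr => h.contra hr⟩
    have h1 : ((range k).image φ).card = k := by
      rw [card_image_of_injOn, card_range]
      intro a ha b hb hab
      exact h.inj a b (mem_range.1 ha) (mem_range.1 hb) hab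
    have h2 : ((range k).image φ).card ≤ N := by
      rw [← h.cx.card]
      exact card_le_univ _
    omega
  | succ m ih =>
    intro k M c V _ _ A _ φ h hi hm hj
    obtain ⟨w, hw⟩ : (Miss A k i c φ).Nonempty := by
      rw [← card_pos]
      omega
    have hw2 : ∀ j, j < k → φ j ≠ w := fun j hjk he => hj j hjk (he ▸ hw)
    obtain ⟨h1, h2, h3⟩ := h.new hN hi hw hw2
    have h4 := ih (k + 1) (addE (addV M k) i k) (cE (cV c k) i k) V A (Function.update φ k w) h2
      (by omega) (by rw [h3, card_erase_of_mem hw, hm]; rfl) (by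
        intro j hjk
        rw [h3, mem_erase]
        rintro ⟨h5, h6⟩
        by_cases hjk' : j = k
        · apply h5
          rw [hjk']
          exact Function.update_self _ _ _
        · rw [Function.update_of_ne hjk'] at h6
          exact hj j (by omega) h6)
    refine ⟨by omega, fun hr => h4.2 ?_⟩
    have : news i (m + 1) k M = news i m (Nat.succ k) (addE (addV M k) i k) := rfl
    rw [this] at hr
    exact hr

/-- the selection -/
theorem sel_sound {N D : ℕ} (hN : N ≤ 18) (k i : ℕ) (hi : i < k) : ∀ (l : List ℕ) (m M : ℕ)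
    (r : List (ℕ × ℕ)), (∀ s ∈ sel N k i l m M r, Ref N D s) →
    (∀ (c : ℕ → ℕ → ℕ) (V : Type) [Fintype V] [DecidableEq V] (A : V → V → Prop) [DecidableRel A]
      (φ : ℕ → V), Sit N D k M c V A φ → (Miss A k i c φ).card = m →
      (∀ j, j < k → φ j ∈ Miss A k i c φ → j ∈ l) → False) ∧ ∀ s ∈ r, Ref N D s := by
  intro l
  induction l with
  | nil =>
    intro m M r h
    have hs : sel N k i [] m M r = bif Nat.ble (Nat.add k m) N then news i m k M :: r else r := rfl
    rw [hs] at h
    constructor
    · intro c V _ _ A _ φ hsit hm hj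
      obtain ⟨h1, h2⟩ := news_sound hN i m k M c V A φ hsit hi hm
        (fun j hjk hmem => absurd (hj j hjk hmem) (by simp))
      have h3 : Nat.ble (Nat.add k m) N = true := Nat.ble_eq_true_of_le h1
      rw [h3] at h
      exact h2 (h _ (by simp))
    · intro s hs'
      apply h
      cases hb : Nat.ble (Nat.add k m) N
      · exact hs'
      · exact List.mem_cons_of_mem _ hs'
  | cons j l ih =>
    intro m M r h
    have hs : sel N k i (j :: l) m M r = bif Nat.beq m 0 then (k, M) :: r
      else sel N k i l (Nat.sub m 1) (addE M i j) (sel N k i l m M r) := rfl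
    rw [hs] at h
    cases hb : Nat.beq m 0
    · rw [hb] at h
      have h' : ∀ s ∈ sel N k i l (Nat.sub m 1) (addE M i j) (sel N k i l m M r), Ref N D s := h
      obtain ⟨h1, h2⟩ := ih (Nat.sub m 1) (addE M i j) (sel N k i l m M r) h'
      obtain ⟨h3, h4⟩ := ih m M r h2
      refine ⟨?_, h4⟩
      intro c V _ _ A _ φ hsit hm hj
      by_cases hjm : j < k ∧ φ j ∈ Miss A k i c φ
      · obtain ⟨h5, h6⟩ := hsit.edge hi hjm.1 hjm.2
        apply h1 (cE c i j) V A φ h5
        · rw [h6, card_erase_of_mem hjm.2, hm]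
          rfl
        · intro j' hj' hmem
          rw [h6, mem_erase] at hmem
          have h7 := hj j' hj' hmem.2
          rcases List.mem_cons.1 h7 with rfl | h8
          · exact absurd rfl hmem.1
          · exact h8
      · apply h3 c V A φ hsit hm
        intro j' hj' hmem
        rcases List.mem_cons.1 (hj j' hj' hmem) with rfl | h8
        · exact absurd ⟨hj', hmem⟩ hjm
        · exact h8
    · rw [hb] at h
      have h' : ∀ s ∈ (k, M) :: r, Ref N D s := h
      refine ⟨?_, fun s hs' => h' s (List.mem_cons_of_mem _ hs')⟩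
      intro c V _ _ A _ φ hsit hm hj
      exact hsit.contra (h' _ (by simp))

theorem mem_cands {E M i : ℕ} : ∀ (k j : ℕ), j < k → ent M i j = 0 → cdeg M j < E →
    j ∈ cands E M i k := by
  intro k
  induction k with
  | zero => intro j hj; omega
  | succ k ih =>
    intro j hj h1 h2
    have hs : cands E M i (k + 1) = bif (Nat.beq (ent M i k) 0 && Nat.blt (cdeg M k) E) then
      k :: cands E M i k else cands E M i k := rfl
    rw [hs]
    by_cases hjk : j = k
    · subst hjk
      have h3 : (Nat.beq (ent M i j) 0 && Nat.blt (cdeg M j) E) = true := by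
        rw [Bool.and_eq_true]
        refine ⟨by rw [h1]; rfl, ?_⟩
        exact Nat.ble_eq_true_of_le h2
      rw [h3]
      simp
    · have h3 := ih j (by omega) h1 h2
      cases (Nat.beq (ent M i k) 0 && Nat.blt (cdeg M k) E)
      · exact h3
      · exact List.mem_cons_of_mem _ h3

/-- **Branching is sound.** -/
theorem t_Kids {N D : ℕ} (hN : N ≤ 18) (k M i : ℕ) (r : List (ℕ × ℕ)) (hi : i < k)
    (h : ∀ s ∈ kids N (D + 1) k M i r, Ref N D s) : Ref N D (k, M) ∧ ∀ s ∈ r, Ref N D s := by
  obtain ⟨h1, h2⟩ := sel_sound hN k i hi _ _ _ _ h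
  refine ⟨?_, h2⟩
  intro c hSh V _ _ A _ hCx ⟨φ, hinj, hedge⟩
  have hSh' : Sh k M c := hSh
  obtain ⟨hent, -, -, hdeg, -⟩ := t_Dig k M c hSh'
  have hk18 := hSh'.k18
  have hsit : Sit N D k M c V A φ := ⟨hSh', hCx, hinj, hedge⟩
  apply h1 c V A φ hsit
  · -- the number of missing neighbours
    have hone : ∀ j, c i j = 0 ∨ c i j = 1 := by
      intro j
      have := hSh'.le1 i j
      omega
    have e1 : cdeg M i = ((range k).filter fun j => c i j = 1).card := by
      rw [hdeg i (by omega), card_filter, ← sum_subset (range_mono hk18)]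
      · refine sum_congr rfl fun j _ => ?_
        rcases hone j with h | h <;> simp [h]
      · intro j _ hj
        rw [hSh'.sy i j]
        exact hSh'.out j i (by simpa using hj)
    have himem : i ∈ (range k).filter fun j => c i j = 1 :=
      mem_filter.2 ⟨mem_range.2 hi, hSh'.di i hi⟩
    have e2 : ((((range k).filter fun j => c i j = 1).erase i).image φ).card = cdeg M i - 1 := by
      rw [card_image_of_injOn, card_erase_of_mem himem, e1]
      intro a ha b hb hab
      have ha' := (mem_filter.1 (mem_erase.1 ha).2).1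
      have hb' := (mem_filter.1 (mem_erase.1 hb).2).1
      exact hinj a b (mem_range.1 ha') (mem_range.1 hb') hab
    have e3 : Miss A k i c φ = (univ.filter fun w => A (φ i) w) \
        ((((range k).filter fun j => c i j = 1).erase i).image φ) := by
      ext w
      rw [mem_miss, mem_sdiff, mem_filter, mem_image]
      constructor
      · rintro ⟨h3, h4⟩
        refine ⟨⟨mem_univ _, h3⟩, ?_⟩
        rintro ⟨j, hj, he⟩
        have hj' := mem_filter.1 (mem_erase.1 hj).2
        exact h4 j (mem_range.1 hj'.1) hj'.2 he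
      · rintro ⟨⟨_, h3⟩, h4⟩
        refine ⟨h3, ?_⟩
        intro j hj hc he
        by_cases hji : j = i
        · rw [← he, hji] at h3
          exact hCx.irr _ h3
        · exact h4 ⟨j, mem_erase.2 ⟨hji, mem_filter.2 ⟨mem_range.2 hj, hc⟩⟩, he⟩
    have e4 : (((range k).filter fun j => c i j = 1).erase i).image φ ⊆
        univ.filter fun w => A (φ i) w := by
      intro w hw
      obtain ⟨j, hj, rfl⟩ := mem_image.1 hw
      have hj1 := mem_erase.1 hj
      have hj' := mem_filter.1 hj1.2
      exact mem_filter.2 ⟨mem_univ _, hedge i j hi (mem_range.1 hj'.1) (fun he => hj1.1 he.symm)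
        hj'.2⟩
    have e5 : 1 ≤ cdeg M i := by
      rw [e1]
      exact card_pos.2 ⟨i, himem⟩
    rw [e3, card_sdiff_of_subset e4, hCx.deg, e2]
    show D - (cdeg M i - 1) = D + 1 - cdeg M i
    omega
  · -- the candidates
    intro j hj hm
    have hm' := mem_miss.1 hm
    have hc0 : c i j = 0 := by
      have h3 := hSh'.le1 i j
      have h4 : c i j ≠ 1 := fun h5 => hm'.2 j hj h5 rfl
      omega
    apply mem_cands k j hj
    · rw [hent i j (by omega) (by omega)]
      exact hc0
    · by_contra hcon
      have h3 : D + 1 ≤ ∑ j' ∈ range 18, c j j' := by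
        rw [← hdeg j (by omega)]
        omega
      obtain ⟨j', h4, h5, h6, h7⟩ := (t_Comp k M c V A φ hSh' hCx hinj hedge j hj h3 (φ i)).1
        (hCx.symm _ _ hm'.1)
      have h8 := hinj i j' hi h4 h7
      rw [← h8, hSh'.sy j i, hc0] at h6
      exact absurd h6 (by norm_num)

end Pool.Agent.J6H93.NG
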