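import Pool.Agent.J6H93.NG.Def

/-!
# The linear certificates are sound
-/

set_option autoImplicit false

namespace Pool.Agent.J6H93.NG

open Finset
open Pool.Agent.J6H77.N18 (Sh Occ ent row cdeg addE addV mp embE injF T edg bldV bldE big cE cV
  t_Dig)

theorem t_Fold : ∀ (E M on a b n C P P' : ℕ), 0 < E → (∀ i, 18 ≤ i → cdeg M i = 0) →
    fold E M on a b n C P = some P' →
    ∃ (p : ℕ → ℕ) (s : ℕ), (∀ i, p i ≠ 0 → cdeg M i = E ∧ i ≠ a ∧ i ≠ b) ∧
      ∑ i ∈ range 18, p i + s ≤ 2047 * n ∧ P' = P + ∑ i ∈ range 18, p i * row M i + s * on := by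
  intro E M on a b n
  induction n with
  | zero =>
    intro C P P' _ _ h
    have h1 : P = P' := Option.some.inj h
    exact ⟨fun _ => 0, 0, fun i hi => absurd rfl hi, by simp, by simp [h1]⟩
  | succ n ih =>
    intro C P P' hE hd h
    obtain ⟨i, hi⟩ : ∃ i, i = Nat.mod C 32 := ⟨_, rfl⟩
    obtain ⟨m, hm⟩ : ∃ m, m = Nat.mod (Nat.shiftRight C 5) 2048 := ⟨_, rfl⟩
    have hm2 : m ≤ 2047 := by
      have : m < 2048 := by
        rw [hm]
        exact Nat.mod_lt _ (by norm_num)
      omega
    have hs : fold E M on a b (n + 1) C P = bif ((Nat.beq (cdeg M i) E || Nat.beq i 31) &&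
        (!(Nat.beq i a) && !(Nat.beq i b))) then fold E M on a b n (Nat.shiftRight C 16)
          (P + m * rowX M on i) else none := by
      rw [hi, hm]
      rfl
    rw [hs] at h
    cases hc : ((Nat.beq (cdeg M i) E || Nat.beq i 31) && (!(Nat.beq i a) && !(Nat.beq i b)))
    · rw [hc] at h
      exact absurd h (by simp)
    · rw [hc] at h
      obtain ⟨p, s, hp1, hp2, hp3⟩ := ih (Nat.shiftRight C 16) (P + m * rowX M on i) P' hE hd h
      by_cases h31 : i = 31
      · refine ⟨p, s + m, hp1, ?_, ?_⟩
        · calc ∑ i ∈ range 18, p i + (s + m) = (∑ i ∈ range 18, p i + s) + m := by ring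
            _ ≤ 2047 * n + 2047 := Nat.add_le_add hp2 hm2
            _ = 2047 * (n + 1) := by ring
        · rw [hp3]
          have : rowX M on i = on := by
            unfold rowX
            rw [h31]
            rfl
          rw [this]
          ring
      · have hrx : rowX M on i = row M i := by
          unfold rowX
          have : Nat.beq i 31 = false := by
            cases hb : Nat.beq i 31
            · rfl
            · exact absurd (Nat.eq_of_beq_eq_true hb) h31
          rw [this]
          rfl
        rw [hrx] at hp3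
        have hc1 : cdeg M i = E ∧ i ≠ a ∧ i ≠ b := by
          simp only [Bool.and_eq_true, Bool.or_eq_true, Bool.not_eq_true', Nat.beq_eq] at hc
          refine ⟨hc.1.resolve_right h31, ?_, ?_⟩
          · intro e
            have := hc.2.1
            rw [e, Nat.beq_refl] at this
            exact absurd this (by simp)
          · intro e
            have := hc.2.2
            rw [e, Nat.beq_refl] at this
            exact absurd this (by simp)
        have hi18 : i < 18 := by
          by_contra hcon
          have := hd i (by omega)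
          omega
        refine ⟨fun j => p j + if j = i then m else 0, s, ?_, ?_, ?_⟩
        · intro j hj
          by_cases hji : j = i
          · rw [hji]
            exact hc1
          · apply hp1
            simpa [hji] using hj
        · rw [sum_add_distrib, sum_ite_eq' (range 18) i (fun _ => m), if_pos (mem_range.mpr hi18)]
          calc ∑ i ∈ range 18, p i + m + s = (∑ i ∈ range 18, p i + s) + m := by ring
            _ ≤ 2047 * n + 2047 := Nat.add_le_add hp2 hm2
            _ = 2047 * (n + 1) := by ring
        · rw [hp3]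
          simp only [add_mul, sum_add_distrib, ite_mul, zero_mul]
          rw [sum_ite_eq' (range 18) i (fun j => m * row M j), if_pos (mem_range.mpr hi18)]
          ring

/-- the neighbours of a completed label -/
theorem t_Comp {N D : ℕ} (k M : ℕ) (c : ℕ → ℕ → ℕ) (V : Type) [Fintype V] [DecidableEq V]
    (A : V → V → Prop) [DecidableRel A] (φ : ℕ → V) (hS : Sh k M c) (hC : Cx N D V A)
    (hinj : ∀ i j, i < k → j < k → φ i = φ j → i = j)
    (hadj : ∀ i j, i < k → j < k → i ≠ j → c i j = 1 → A (φ i) (φ j))
    (i : ℕ) (hi : i < k) (hdeg : D + 1 ≤ ∑ j ∈ range 18, c i j) (w : V) :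
    A (φ i) w ↔ ∃ j, j < k ∧ j ≠ i ∧ c i j = 1 ∧ w = φ j := by
  have hone : ∀ j, c i j = 0 ∨ c i j = 1 := by
    intro j
    have := hS.le1 i j
    omega
  have hJ : D + 1 ≤ ((range 18).filter (fun j => c i j = 1)).card := by
    refine hdeg.trans_eq ?_
    rw [Finset.card_filter]
    refine Finset.sum_congr rfl fun j _ => ?_
    rcases hone j with h | h <;> simp [h]
  have hk : ∀ j, c i j = 1 → j < k := by
    intro j hj
    by_contra h
    have h1 := hS.out j i (not_lt.1 h)
    rw [hS.sy j i, hj] at h1
    omega
  have h18 := hS.k18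
  have hmem : i ∈ (range 18).filter (fun j => c i j = 1) := by
    rw [Finset.mem_filter, Finset.mem_range]
    exact ⟨by omega, hS.di i hi⟩
  have hJ' : D ≤ (((range 18).filter (fun j => c i j = 1)).erase i).card := by
    rw [Finset.card_erase_of_mem hmem]
    omega
  have hJm : ∀ j, j ∈ ((range 18).filter (fun j => c i j = 1)).erase i ↔
      j < k ∧ j ≠ i ∧ c i j = 1 := by
    intro j
    rw [Finset.mem_erase, Finset.mem_filter, Finset.mem_range]
    constructor
    · rintro ⟨h1, _, h2⟩
      exact ⟨hk j h2, h1, h2⟩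
    · rintro ⟨h1, h2, h3⟩
      exact ⟨h2, by omega, h3⟩
  have himg : D ≤ ((((range 18).filter (fun j => c i j = 1)).erase i).image φ).card := by
    rw [Finset.card_image_of_injOn]
    · exact hJ'
    intro a ha b hb hab
    exact hinj a b ((hJm a).1 ha).1 ((hJm b).1 hb).1 hab
  have hsub : (((range 18).filter (fun j => c i j = 1)).erase i).image φ ⊆
      univ.filter (fun w => A (φ i) w) := by
    intro w hw
    obtain ⟨j, hj, rfl⟩ := Finset.mem_image.1 hw
    obtain ⟨h1, h2, h3⟩ := (hJm j).1 hj
    rw [Finset.mem_filter]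
    exact ⟨Finset.mem_univ _, hadj i j hi h1 (fun h => h2 h.symm) h3⟩
  have heq := Finset.eq_of_subset_of_card_le hsub (by rw [hC.deg]; exact himg)
  have h1 : A (φ i) w ↔ w ∈ univ.filter (fun w => A (φ i) w) := by
    rw [Finset.mem_filter]
    simp
  rw [h1, ← heq, Finset.mem_image]
  constructor
  · rintro ⟨j, hj, rfl⟩
    obtain ⟨h2, h3, h4⟩ := (hJm j).1 hj
    exact ⟨j, h2, h3, h4, rfl⟩
  · rintro ⟨j, h2, h3, h4, rfl⟩
    exact ⟨j, (hJm j).2 ⟨h2, h3, h4⟩, rfl⟩

/-- kernel equation at a completed label -/
theorem t_Row {N D : ℕ} (k M : ℕ) (c : ℕ → ℕ → ℕ) (V : Type) [Fintype V] [DecidableEq V]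
    (A : V → V → Prop) [DecidableRel A] (φ : ℕ → V) (hS : Sh k M c) (hX : Cx N D V A)
    (hinj : ∀ i j, i < k → j < k → φ i = φ j → i = j)
    (hadj : ∀ i j, i < k → j < k → i ≠ j → c i j = 1 → A (φ i) (φ j))
    (y : V → ℝ) (i : ℕ) (hik : i < k) (hdeg : D + 1 ≤ ∑ j ∈ range 18, c i j) :
    y (φ i) + ∑ w, (if A (φ i) w then y w else 0) = ∑ j ∈ range 18, (c i j : ℝ) * y (φ j) := by
  classical
  have hcomp := t_Comp k M c V A φ hS hX hinj hadj i hik hdeg
  set J : Finset ℕ := (range k).filter (fun j => j ≠ i ∧ c i j = 1) with hJ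
  have hout : ∀ j, k ≤ j → c i j = 0 := fun j hj => by rw [hS.sy i j]; exact hS.out j i hj
  have hfil : univ.filter (fun w => A (φ i) w) = J.image φ := by
    ext w
    rw [mem_filter, mem_image]
    constructor
    · rintro ⟨-, hw⟩
      obtain ⟨j, h1, h2, h3, h4⟩ := (hcomp w).1 hw
      exact ⟨j, mem_filter.2 ⟨mem_range.2 h1, h2, h3⟩, h4.symm⟩
    · rintro ⟨j, hj, hw⟩
      have hj' := mem_filter.1 hj
      exact ⟨mem_univ _, (hcomp w).2 ⟨j, mem_range.1 hj'.1, hj'.2.1, hj'.2.2, hw.symm⟩⟩
  have h1 : ∑ w, (if A (φ i) w then y w else 0) = ∑ j ∈ J, y (φ j) := by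
    rw [← sum_filter, hfil, sum_image]
    intro a ha b hb hab
    exact hinj a b (mem_range.1 (mem_filter.1 ha).1) (mem_range.1 (mem_filter.1 hb).1) hab
  have hset : (range 18).filter (fun j => c i j = 1) = insert i J := by
    ext j
    rw [mem_filter, mem_range, mem_insert, mem_filter, mem_range]
    have hk := hS.k18
    constructor
    · rintro ⟨hj, hc⟩
      by_cases hji : j = i
      · exact Or.inl hji
      · refine Or.inr ⟨?_, hji, hc⟩
        by_contra hjk
        rw [hout j (not_lt.1 hjk)] at hc
        exact zero_ne_one hc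
    · rintro (hji | ⟨hj, -, hc⟩)
      · rw [hji]
        exact ⟨by omega, hS.di i hik⟩
      · exact ⟨by omega, hc⟩
  have hiJ : i ∉ J := fun h => (mem_filter.1 h).2.1 rfl
  have h2 : ∑ j ∈ range 18, (c i j : ℝ) * y (φ j) =
      ∑ j ∈ range 18, (if c i j = 1 then y (φ j) else 0) := by
    refine sum_congr rfl fun j _ => ?_
    have hle := hS.le1 i j
    by_cases hc : c i j = 1
    · rw [if_pos hc, hc]
      simp
    · have hc0 : c i j = 0 := by omega
      rw [if_neg hc, hc0]
      simp
  rw [h1, h2, ← sum_filter, hset, sum_insert hiJ]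

/-- uniqueness of digits -/
theorem digits : ∀ (n : ℕ) (f g : ℕ → ℕ), (∀ j, j < n → f j < 65536) →
    (∀ j, j < n → g j < 65536) →
    ∑ j ∈ range n, f j * 65536 ^ j = ∑ j ∈ range n, g j * 65536 ^ j → ∀ j, j < n → f j = g j := by
  intro n
  induction n with
  | zero => intro f g _ _ _ j hj; omega
  | succ n ih =>
    intro f g hf hg h j hj
    have e : ∀ f : ℕ → ℕ, ∑ j ∈ range (n + 1), f j * 65536 ^ j =
        65536 * (∑ j ∈ range n, f (j + 1) * 65536 ^ j) + f 0 := by
      intro f
      rw [sum_range_succ', mul_sum, pow_zero, mul_one]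
      congr 1
      refine sum_congr rfl fun j _ => ?_
      ring
    rw [e f, e g] at h
    have h1 := hf 0 (by omega)
    have h2 := hg 0 (by omega)
    have h3 : f 0 = g 0 := by omega
    have h4 : ∑ j ∈ range n, f (j + 1) * 65536 ^ j = ∑ j ∈ range n, g (j + 1) * 65536 ^ j := by
      omega
    cases j with
    | zero => exact h3
    | succ j =>
      exact ih (fun j => f (j + 1)) (fun j => g (j + 1)) (fun j hj => hf _ (by omega))
        (fun j hj => hg _ (by omega)) h4 j (by omega)

theorem ones_eq {N : ℕ} (hN : N ≤ 18) :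
    ones N = ∑ j ∈ range 18, (if j < N then 1 else 0) * 65536 ^ j := by
  interval_cases N <;> rfl

/-- the kernel vector is orthogonal to the constants -/
theorem sum_x {N D : ℕ} {V : Type} [Fintype V] [DecidableEq V] {A : V → V → Prop}
    [DecidableRel A] (hX : Cx N D V A) {x : V → ℝ}
    (hx : ∀ v, x v + ∑ w, (if A v w then x w else 0) = 0) : ∑ v, x v = 0 := by
  have h1 : ∑ v, (x v + ∑ w, (if A v w then x w else 0)) = 0 := sum_eq_zero fun v _ => hx v
  rw [sum_add_distrib, sum_comm] at h1
  have h2 : ∀ w, ∑ v, (if A v w then x w else 0) = (D : ℝ) * x w := by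
    intro w
    rw [← sum_filter, sum_const, nsmul_eq_mul]
    congr 2
    rw [← hX.deg w]
    congr 1
    ext v
    simp only [mem_filter, mem_univ, true_and]
    exact ⟨fun h => hX.symm _ _ h, fun h => hX.symm _ _ h⟩
  rw [sum_congr rfl fun w _ => h2 w, ← mul_sum] at h1
  have h3 : (1 + (D : ℝ)) * ∑ v, x v = 0 := by linarith
  rcases mul_eq_zero.1 h3 with h | h
  · have : (0 : ℝ) ≤ D := Nat.cast_nonneg D
    linarith
  · exact h

theorem t_Zero {N D : ℕ} (hN : N ≤ 18) (k M w : ℕ) (h : zeroC N (D + 1) k M w = true) :
    Ref N D (k, M) := by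
  classical
  intro c hSh V _ _ A _ hCx ⟨φ, hinj, hedge⟩
  obtain ⟨-, hrow, -, hdeg, hdeg0⟩ := t_Dig k M c hSh
  unfold zeroC at h
  generalize hon : (bif Nat.beq k N then ones N else 0) = on at h
  generalize ha : Nat.mod w 32 = v at h
  generalize hd : Nat.mod (Nat.shiftRight w 5) 2048 = d at h
  generalize hnp : Nat.mod (Nat.shiftRight w 16) 32 = np at h
  generalize hnq : Nat.mod (Nat.shiftRight w 21) 32 = nq at h
  have hd2 : d < 2048 := by rw [← hd]; exact Nat.mod_lt _ (by norm_num)
  have hnp2 : np < 32 := by rw [← hnp]; exact Nat.mod_lt _ (by norm_num)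
  have hnq2 : nq < 32 := by rw [← hnq]; exact Nat.mod_lt _ (by norm_num)
  rw [Bool.and_eq_true, Bool.and_eq_true] at h
  obtain ⟨h1, h2, h5⟩ := h
  have h1 : v < k := by simpa using h1
  have h2 : d ≠ 0 := by
    rintro rfl
    exact absurd h2 (by decide)
  split at h5
  case h_2 => exact absurd h5 (by decide)
  rename_i P Q hP hQ
  have h5 : P = Q + Nat.shiftLeft d (16 * v) := Nat.eq_of_beq_eq_true h5
  have hk18 : k ≤ 18 := hSh.k18
  obtain ⟨p, s, hp1, hp2, hp3⟩ := t_Fold _ M on 30 30 _ _ _ _ (Nat.succ_pos D) hdeg0 hP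
  obtain ⟨q, t, hq1, hq2, hq3⟩ := t_Fold _ M on 30 30 _ _ _ _ (Nat.succ_pos D) hdeg0 hQ
  -- digits of the row `on`
  obtain ⟨o, ho1, ho2, ho3⟩ : ∃ o : ℕ → ℕ, (∀ j, o j ≤ 1) ∧
      on = ∑ j ∈ range 18, o j * 65536 ^ j ∧
      ∀ x : V → ℝ, (∑ v, x v = 0) → ∑ j ∈ range 18, (o j : ℝ) * x (φ j) = 0 := by
    by_cases hkN : k = N
    · refine ⟨fun j => if j < N then 1 else 0, fun j => ?_, ?_, ?_⟩
      · show (if j < N then 1 else 0) ≤ 1
        split_ifs <;> simp
      · rw [← hon, hkN, Nat.beq_refl]
        exact ones_eq hN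
      · intro x hx
        have himg : (range k).image φ = univ := by
          apply eq_univ_of_card
          rw [card_image_of_injOn, card_range, hCx.card, hkN]
          intro a ha b hb hab
          exact hinj a b (mem_range.1 ha) (mem_range.1 hb) hab
        rw [← himg, sum_image] at hx
        · rw [← hx]
          have e1 : ∑ j ∈ range 18, (((if j < N then 1 else 0 : ℕ)) : ℝ) * x (φ j) =
              ∑ j ∈ range 18, if j < N then x (φ j) else 0 := by
            refine sum_congr rfl fun j _ => ?_
            split_ifs <;> simp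
          rw [e1, ← sum_filter]
          refine sum_congr ?_ fun _ _ => rfl
          ext j
          rw [mem_filter, mem_range, mem_range]
          omega
        · intro a ha b hb hab
          exact hinj a b (mem_range.1 ha) (mem_range.1 hb) hab
    · refine ⟨fun _ => 0, fun j => by simp, ?_, fun x _ => by simp⟩
      rw [← hon]
      have : Nat.beq k N = false := by
        cases hb : Nat.beq k N
        · rfl
        · exact absurd (Nat.eq_of_beq_eq_true hb) hkN
      rw [this]
      simp
  have hcol : ∀ j, j < 18 → ∑ i ∈ range 18, p i * c i j + s * o j =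
      ∑ i ∈ range 18, q i * c i j + t * o j + (if j = v then d else 0) := by
    have hle : ∀ (r : ℕ → ℕ) (j : ℕ), ∑ i ∈ range 18, r i * c i j ≤ ∑ i ∈ range 18, r i := by
      intro r j
      refine sum_le_sum fun i _ => ?_
      have := hSh.le1 i j
      nlinarith
    apply digits 18
    · intro j _
      have e1 := hle p j
      have e2 : s * o j ≤ s := by
        have := ho1 j
        nlinarith
      have e3 : 2047 * np ≤ 2047 * 31 := by omega
      omega
    · intro j _
      have e1 := hle q j
      have e2 : t * o j ≤ t := by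
        have := ho1 j
        nlinarith
      have e3 : 2047 * nq ≤ 2047 * 31 := by omega
      split_ifs <;> omega
    · have key : ∀ r : ℕ → ℕ, ∑ i ∈ range 18, r i * row M i =
          ∑ j ∈ range 18, (∑ i ∈ range 18, r i * c i j) * 65536 ^ j := by
        intro r
        calc ∑ i ∈ range 18, r i * row M i =
            ∑ i ∈ range 18, ∑ j ∈ range 18, r i * c i j * 65536 ^ j := by
              refine sum_congr rfl fun i hi => ?_
              rw [hrow i (mem_range.1 hi), mul_sum]
              exact sum_congr rfl fun j _ => by ring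
          _ = _ := by
              rw [sum_comm]
              exact sum_congr rfl fun j _ => by rw [sum_mul]
      have key2 : ∀ r : ℕ, r * on = ∑ j ∈ range 18, (r * o j) * 65536 ^ j := by
        intro r
        rw [ho2, mul_sum]
        exact sum_congr rfl fun j _ => by ring
      have key3 : Nat.shiftLeft d (16 * v) =
          ∑ j ∈ range 18, (if j = v then d else 0) * 65536 ^ j := by
        have e1 : ∑ j ∈ range 18, (if j = v then d else 0) * 65536 ^ j =
            ∑ j ∈ range 18, (if j = v then d * 65536 ^ j else 0) := by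
          refine sum_congr rfl fun j _ => ?_
          split_ifs <;> simp
        rw [e1, sum_ite_eq' (range 18) v, if_pos (mem_range.2 (by omega))]
        show d <<< (16 * v) = _
        rw [Nat.shiftLeft_eq, pow_mul]
        norm_num
      rw [hp3, hq3, key p, key q, key2 s, key2 t, key3, zero_add, zero_add] at h5
      simp only [add_mul, sum_add_distrib]
      exact h5
  obtain ⟨x, hx0, hx1, -⟩ := hCx.ex
  have hsum := ho3 x (sum_x hCx hx1)
  -- the combinations of rows vanish
  have hz : ∀ r : ℕ → ℕ, (∀ i, r i ≠ 0 → cdeg M i = D + 1 ∧ i ≠ 30 ∧ i ≠ 30) →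
      ∑ j ∈ range 18, (∑ i ∈ range 18, (r i : ℝ) * c i j) * x (φ j) = 0 := by
    intro r hr
    have e1 : ∑ j ∈ range 18, (∑ i ∈ range 18, (r i : ℝ) * c i j) * x (φ j) =
        ∑ i ∈ range 18, (r i : ℝ) * ∑ j ∈ range 18, (c i j : ℝ) * x (φ j) := by
      rw [sum_congr rfl fun j _ => sum_mul _ _ _, sum_comm]
      refine sum_congr rfl fun i _ => ?_
      rw [mul_sum]
      exact sum_congr rfl fun j _ => by ring
    rw [e1]
    refine sum_eq_zero fun i hi => ?_
    by_cases h0 : r i = 0
    · rw [h0]
      simp
    · have h3 := (hr i h0).1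
      have hi18 := mem_range.1 hi
      rw [hdeg i hi18] at h3
      have hik : i < k := by
        by_contra hc
        rw [sum_eq_zero fun j _ => hSh.out i j (by omega)] at h3
        omega
      rw [← t_Row k M c V A φ hSh hCx hinj hedge x i hik h3.ge, hx1, mul_zero]
  have hfin : ∑ j ∈ range 18, ((∑ i ∈ range 18, (p i : ℝ) * c i j) * x (φ j) +
      s * ((o j : ℝ) * x (φ j))) = ∑ j ∈ range 18, ((∑ i ∈ range 18, (q i : ℝ) * c i j) * x (φ j) +
      t * ((o j : ℝ) * x (φ j)) + (if j = v then (d : ℝ) * x (φ j) else 0)) := by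
    refine sum_congr rfl fun j hj => ?_
    have e1 := hcol j (mem_range.1 hj)
    have e2 : (∑ i ∈ range 18, (p i : ℝ) * c i j) + s * (o j : ℝ) =
        (∑ i ∈ range 18, (q i : ℝ) * c i j) + t * (o j : ℝ) + (if j = v then (d : ℝ) else 0) := by
      have := congrArg (Nat.cast : ℕ → ℝ) e1
      push_cast at this
      exact this
    have e3 : ((∑ i ∈ range 18, (p i : ℝ) * c i j) + s * (o j : ℝ)) * x (φ j) =
        ((∑ i ∈ range 18, (q i : ℝ) * c i j) + t * (o j : ℝ) +
          (if j = v then (d : ℝ) else 0)) * x (φ j) := by rw [e2]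
    by_cases hjv : j = v
    · rw [if_pos hjv] at e3 ⊢
      linarith
    · rw [if_neg hjv] at e3 ⊢
      linarith
  rw [sum_add_distrib, sum_add_distrib, sum_add_distrib, ← mul_sum, ← mul_sum, hsum, hz p hp1,
    hz q hq1, sum_ite_eq' (range 18) v, if_pos (mem_range.2 (by omega))] at hfin
  have : (d : ℝ) * x (φ v) = 0 := by linarith
  rcases mul_eq_zero.1 this with h | h
  · exact h2 (by exact_mod_cast h)
  · exact hx0 _ h

theorem t_Dep {N D : ℕ} (k M w : ℕ) (h : depC N (D + 1) k M w = true) :
    Ref N D (k, M) := by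
  classical
  intro c hSh V _ _ A _ hCx ⟨φ, hinj, hedge⟩
  obtain ⟨-, hrow, -, hdeg, hdeg0⟩ := t_Dig k M c hSh
  unfold depC at h
  generalize ha : Nat.mod w 32 = a at h
  generalize hd : Nat.mod (Nat.shiftRight w 5) 2048 = d at h
  generalize hb : Nat.mod (Nat.shiftRight w 26) 32 = b at h
  generalize hnp : Nat.mod (Nat.shiftRight w 16) 32 = np at h
  generalize hnq : Nat.mod (Nat.shiftRight w 21) 32 = nq at h
  have hd2 : d < 2048 := by rw [← hd]; exact Nat.mod_lt _ (by norm_num)
  have hnp2 : np < 32 := by rw [← hnp]; exact Nat.mod_lt _ (by norm_num)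
  have hnq2 : nq < 32 := by rw [← hnq]; exact Nat.mod_lt _ (by norm_num)
  rw [Bool.and_eq_true, Bool.and_eq_true, Bool.and_eq_true, Bool.and_eq_true] at h
  obtain ⟨h1, h2, h3, h4, h5⟩ := h
  have h1 : cdeg M a = D + 1 := Nat.eq_of_beq_eq_true h1
  have h2 : d ≠ 0 := by
    rintro rfl
    exact absurd h2 (by decide)
  have h3 : a ≠ b := by
    rintro rfl
    simp at h3
  have h4 : b < k ∨ k < N := by
    rw [Bool.or_eq_true] at h4
    exact h4.imp (fun h => by simpa using h) (fun h => by simpa using h)
  split at h5
  case h_2 => exact absurd h5 (by decide)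
  rename_i P Q hP hQ
  have h5 : d * row M a + P = Q := Nat.eq_of_beq_eq_true h5
  obtain ⟨p, s, hp1, hp2, hp3⟩ := t_Fold _ M 0 a b _ _ _ _ (Nat.succ_pos D) hdeg0 hP
  obtain ⟨q, t, hq1, hq2, hq3⟩ := t_Fold _ M 0 a b _ _ _ _ (Nat.succ_pos D) hdeg0 hQ
  rw [mul_zero, add_zero] at hp3 hq3
  have ha18 : a < 18 := by
    by_contra hc
    rw [hdeg0 a (by omega)] at h1
    omega
  have hak : a < k := by
    by_contra hc
    rw [hdeg a ha18, sum_eq_zero fun j _ => hSh.out a j (by omega)] at h1
    omega
  have hk18 := hSh.k18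
  -- the equations for the columns
  have hcol : ∀ j, j < 18 → d * c a j + ∑ i ∈ range 18, p i * c i j =
      ∑ i ∈ range 18, q i * c i j := by
    have hle : ∀ (r : ℕ → ℕ) (j : ℕ), ∑ i ∈ range 18, r i * c i j ≤ ∑ i ∈ range 18, r i := by
      intro r j
      refine sum_le_sum fun i _ => ?_
      have := hSh.le1 i j
      nlinarith
    apply digits 18
    · intro j _
      have e1 := hle p j
      have e2 : d * c a j ≤ d := by
        have := hSh.le1 a j
        nlinarith
      have e3 : 2047 * np ≤ 2047 * 31 := by omega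
      omega
    · intro j _
      have e1 := hle q j
      have e3 : 2047 * nq ≤ 2047 * 31 := by omega
      omega
    · have key : ∀ r : ℕ → ℕ, ∑ i ∈ range 18, r i * row M i =
          ∑ j ∈ range 18, (∑ i ∈ range 18, r i * c i j) * 65536 ^ j := by
        intro r
        calc ∑ i ∈ range 18, r i * row M i =
            ∑ i ∈ range 18, ∑ j ∈ range 18, r i * c i j * 65536 ^ j := by
              refine sum_congr rfl fun i hi => ?_
              rw [hrow i (mem_range.1 hi), mul_sum]
              exact sum_congr rfl fun j _ => by ring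
          _ = _ := by
              rw [sum_comm]
              exact sum_congr rfl fun j _ => by rw [sum_mul]
      rw [hp3, hq3, key p, key q, hrow a ha18, mul_sum, zero_add, zero_add] at h5
      rw [← h5, ← sum_add_distrib]
      exact sum_congr rfl fun j _ => by ring
  -- the vector
  obtain ⟨z, hz⟩ : ∃ z : ℕ → ℝ, ∀ i, z i = (p i : ℝ) - q i + if i = a then (d : ℝ) else 0 :=
    ⟨_, fun _ => rfl⟩
  have hcol' : ∀ j, j < k → ∑ i ∈ range k, z i * (c i j : ℝ) = 0 := by
    intro j hj
    have e1 : ∑ i ∈ range k, z i * (c i j : ℝ) = ∑ i ∈ range 18, z i * (c i j : ℝ) := by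
      apply sum_subset (range_mono hk18)
      intro i _ hi
      rw [hSh.out i j (by simpa using hi)]
      simp
    rw [e1]
    have e2 := hcol j (by omega)
    have e3 : (d : ℝ) * c a j + ∑ i ∈ range 18, (p i : ℝ) * c i j =
        ∑ i ∈ range 18, (q i : ℝ) * c i j := by exact_mod_cast e2
    have e4 : ∑ i ∈ range 18, z i * (c i j : ℝ) = (∑ i ∈ range 18, (p i : ℝ) * c i j -
        ∑ i ∈ range 18, (q i : ℝ) * c i j) + d * c a j := by
      rw [← sum_sub_distrib]
      have e5 : (d : ℝ) * c a j = ∑ i ∈ range 18, if i = a then (d : ℝ) * c i j else 0 := by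
        rw [sum_ite_eq' (range 18) a, if_pos (mem_range.2 ha18)]
      rw [e5, ← sum_add_distrib]
      refine sum_congr rfl fun i _ => ?_
      rw [hz]
      split_ifs <;> ring
    rw [e4]
    linarith
  have hzdeg : ∀ i, i < k → z i ≠ 0 → D + 1 ≤ ∑ j ∈ range 18, c i j := by
    intro i hi hzi
    rw [← hdeg i (by omega)]
    apply ge_of_eq
    by_cases hp : p i = 0
    · by_cases hq : q i = 0
      · by_cases hia : i = a
        · rw [hia]; exact h1
        · exfalso
          apply hzi
          rw [hz]
          simp [hp, hq, hia]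
      · exact (hq1 i hq).1
    · exact (hp1 i hp).1
  have hz0 : ∀ i, i = b → z i = 0 := by
    rintro i rfl
    have hp : p i = 0 := by
      by_contra hc
      exact (hp1 i hc).2.2 rfl
    have hq : q i = 0 := by
      by_contra hc
      exact (hq1 i hc).2.2 rfl
    rw [hz]
    simp [hp, hq, h3.symm]
  have hza : z a = d := by
    have hp : p a = 0 := by
      by_contra hc
      exact (hp1 a hc).2.1 rfl
    have hq : q a = 0 := by
      by_contra hc
      exact (hq1 a hc).2.1 rfl
    rw [hz]
    simp [hp, hq]
  obtain ⟨x, hx0, -, hxu⟩ := hCx.ex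
  let y : V → ℝ := fun v => ∑ i ∈ range k, if φ i = v then z i else 0
  have hyφ : ∀ i, i < k → y (φ i) = z i := by
    intro i hi
    show ∑ i' ∈ range k, (if φ i' = φ i then z i' else 0) = z i
    rw [sum_eq_single i]
    · simp
    · intro j hj hji
      rw [if_neg]
      exact fun h => hji (hinj j i (mem_range.1 hj) hi h)
    · intro h
      exact absurd (mem_range.2 hi) h
  have hker : ∀ v, y v + ∑ u, (if A v u then y u else 0) = 0 := by
    intro v
    have e1 : ∑ u, (if A v u then y u else 0) = ∑ i ∈ range k, if A (φ i) v then z i else 0 := by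
      calc ∑ u, (if A v u then y u else 0) =
          ∑ u, ∑ i ∈ range k, (if A v u then (if φ i = u then z i else 0) else 0) := by
            refine sum_congr rfl fun u _ => ?_
            split_ifs with hu
            · rfl
            · simp
        _ = ∑ i ∈ range k, ∑ u, (if A v u then (if φ i = u then z i else 0) else 0) := sum_comm
        _ = _ := by
            refine sum_congr rfl fun i _ => ?_
            rw [sum_eq_single (φ i)]
            · by_cases hA : A v (φ i)
              · rw [if_pos hA, if_pos (hCx.symm _ _ hA), if_pos rfl]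
              · rw [if_neg hA, if_neg fun h => hA (hCx.symm _ _ h)]
            · intro u _ hu
              rw [if_neg (show ¬ φ i = u from fun h => hu h.symm), ite_self]
            · intro h
              exact absurd (mem_univ _) h
    rw [e1]
    have e2 : ∀ i, i < k → ((if φ i = v then z i else 0) + if A (φ i) v then z i else 0) =
        ∑ j ∈ range k, (if v = φ j then z i * (c i j : ℝ) else 0) := by
      intro i hi
      by_cases hzi : z i = 0
      · rw [hzi]
        simp
      · have hN := t_Comp k M c V A φ hSh hCx hinj hedge i hi (hzdeg i hi hzi) v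
        by_cases hv : ∃ j, j < k ∧ v = φ j
        · obtain ⟨j, hj, rfl⟩ := hv
          rw [sum_eq_single j]
          · rw [if_pos rfl]
            by_cases hji : j = i
            · subst hji
              rw [if_pos rfl, if_neg (hCx.irr _), hSh.di j hj]
              simp
            · rw [if_neg fun h => hji (hinj _ _ hj hi h.symm)]
              have hcij := hSh.le1 i j
              rcases Nat.eq_zero_or_pos (c i j) with h0 | h0
              · rw [h0, if_neg]
                · simp
                · rw [hN]
                  rintro ⟨j', hj', _, h1', h2'⟩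
                  have := hinj _ _ hj hj' h2'
                  subst this
                  omega
              · have h1' : c i j = 1 := by omega
                rw [h1', if_pos (hN.2 ⟨j, hj, hji, h1', rfl⟩)]
                simp
          · intro j' hj' hne
            rw [if_neg]
            exact fun h => hne (hinj _ _ (mem_range.1 hj') hj h.symm)
          · intro h
            exact absurd (mem_range.2 hj) h
        · rw [if_neg fun h => hv ⟨i, hi, h.symm⟩, if_neg]
          · rw [sum_eq_zero, zero_add]
            intro j hj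
            rw [if_neg fun h => hv ⟨j, mem_range.1 hj, h⟩]
          · rw [hN]
            rintro ⟨j, hj, _, _, h⟩
            exact hv ⟨j, hj, h⟩
    show ∑ i ∈ range k, (if φ i = v then z i else 0) + _ = 0
    rw [← sum_add_distrib, sum_congr rfl fun i hi => e2 i (mem_range.1 hi), sum_comm]
    refine sum_eq_zero fun j hj => ?_
    by_cases hv : v = φ j
    · simp only [if_pos hv]
      exact hcol' j (mem_range.1 hj)
    · simp only [if_neg hv]
      simp
  obtain ⟨c', hc'⟩ := hxu y hker
  have hc0 : c' = 0 := by
    rcases h4 with hbk | hk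
    · have e1 := hc' (φ b)
      rw [hyφ b hbk, hz0 b rfl] at e1
      rcases mul_eq_zero.1 e1.symm with h | h
      · exact h
      · exact absurd h (hx0 _)
    · obtain ⟨v, hv⟩ : ∃ v, ∀ i, i < k → φ i ≠ v := by
        by_contra hcon
        push Not at hcon
        have hcard : Fintype.card V ≤ k := by
          rw [← card_univ, ← card_range k]
          calc (univ : Finset V).card ≤ ((range k).image φ).card := by
                apply card_le_card
                intro v _
                obtain ⟨i, hi, h⟩ := hcon v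
                exact mem_image.2 ⟨i, mem_range.2 hi, h⟩
            _ ≤ _ := card_image_le
        have := hCx.card
        omega
      have e1 := hc' v
      have e2 : y v = 0 := by
        show ∑ i ∈ range k, (if φ i = v then z i else 0) = 0
        exact sum_eq_zero fun i hi => if_neg (hv i (mem_range.1 hi))
      rw [e2] at e1
      rcases mul_eq_zero.1 e1.symm with h | h
      · exact h
      · exact absurd h (hx0 _)
  have e1 := hc' (φ a)
  rw [hyφ a hak, hza, hc0, zero_mul] at e1
  exact h2 (by exact_mod_cast e1)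

end Pool.Agent.J6H93.NG
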