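import Pool.Agent.J6H93.NG.G9.All
import Pool.Agent.J6H93.NG.G10.All
import Pool.Agent.J6H93.NG.G11.All
import Pool.Agent.J6H93.NG.G13.All
import Pool.Agent.J6H93.NG.G14.All

/-!
# Five pairs `(ρ, n)` without nut graphs

There is no `ρ`-regular nut graph on `n` vertices for `(ρ, n) = (6, 10), (6, 11), (8, 13), (9, 14)`
and `(10, 14)`: exhaustive searches over the complements, checked by the kernel.
-/

set_option autoImplicit false

namespace Pool.Agent.J6H93.NG

open Pool.Agent.TH296.Nut

theorem not_mem_6_10 : 10 ∉ nutOrders 6 :=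
  final (D := 3) (by norm_num) (by norm_num) rfl G10.all

theorem not_mem_6_11 : 11 ∉ nutOrders 6 :=
  final (D := 4) (by norm_num) (by norm_num) rfl G11.all

theorem not_mem_8_13 : 13 ∉ nutOrders 8 :=
  final (D := 4) (by norm_num) (by norm_num) rfl G13.all

theorem not_mem_9_14 : 14 ∉ nutOrders 9 :=
  final (D := 4) (by norm_num) (by norm_num) rfl G9.all

theorem not_mem_10_14 : 14 ∉ nutOrders 10 :=
  final (D := 3) (by norm_num) (by norm_num) rfl G14.all

end Pool.Agent.J6H93.NG
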